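import Pool.Agent.Work.MP_dfab40_lc.R.F.Final

/-!
# The first-order part of Ramsey's theorem for pairs

Ramsey's theorem for pairs and two colours, and its stable form, are `Π^1_1` conservative over
`RCA_0 + BΣ^0_2`; so all three theories have the same first-order part.

The language `L_2`, its formulas `Fm` and the derivability relation `Prf` (natural deduction) are
defined in `Pool/Agent/Work/MP_dc6514_lc/R/Syn.lean`; the theories `RCA0`, `BSigma2` and the
sentences `RT22`, `SRT22` are defined in `Pool/Agent/Work/MP_dfab40_lc/R/F/Thy.lean`.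
-/

namespace Pool.Agent.Results.MP_dc6514_lc.RamseyPairsFirstOrder

open Pool.Agent.RT

/-- The first-order part of the theory `T`: the sentences (formulas without free variables) without
set variables that `T` proves. -/
def firstOrderPart (T : Set Fm) : Set Fm := {p | FirstOrder p ∧ p.fN = 0 ∧ p.fS = 0 ∧ Prf T [] p}

theorem arith_of_firstOrder {p : Fm} (h : FirstOrder p) : Arith p := by
  induction h with
  | eq s t => exact .eq s t
  | lt s t => exact .lt s t
  | bot => exact .bot
  | imp _ _ h1 h2 => exact .imp h1 h2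
  | allN _ h => exact .allN h

theorem result :
    (∀ p : Fm, Pi11 p →
      (Prf (RCA0 ∪ {RT22}) [] p ↔ Prf (RCA0 ∪ BSigma2) [] p) ∧
      (Prf (RCA0 ∪ {SRT22}) [] p ↔ Prf (RCA0 ∪ BSigma2) [] p)) ∧
    firstOrderPart (RCA0 ∪ {RT22}) = firstOrderPart (RCA0 ∪ BSigma2) ∧
    firstOrderPart (RCA0 ∪ {SRT22}) = firstOrderPart (RCA0 ∪ BSigma2) ∧
    firstOrderPart (RCA0 ∪ {SRT22}) = firstOrderPart (RCA0 ∪ {RT22}) := by
  have h1 : firstOrderPart (RCA0 ∪ {RT22}) = firstOrderPart (RCA0 ∪ BSigma2) := by
    ext p
    exact and_congr_right fun hp => and_congr_right fun _ => and_congr_right fun _ =>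
      (main_iff (.arith (arith_of_firstOrder hp))).1
  have h2 : firstOrderPart (RCA0 ∪ {SRT22}) = firstOrderPart (RCA0 ∪ BSigma2) := by
    ext p
    exact and_congr_right fun hp => and_congr_right fun _ => and_congr_right fun _ =>
      (main_iff (.arith (arith_of_firstOrder hp))).2
  exact ⟨fun p hp => main_iff hp, h1, h2, h2.trans h1.symm⟩

end Pool.Agent.Results.MP_dc6514_lc.RamseyPairsFirstOrder
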